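import Pool.Agent.Helper5.NX.PhiBasics

/-!
# Project NX, NX-23: types of differences and bad sets
-/

set_option autoImplicit false

open Finset
open scoped BigOperators ComplexConjugate

namespace Pool.Agent.Helper57.NX

noncomputable section

section Types81
variable {m : ℕ}

theorem Typ.mono81 {S : Sys m} {c : Fin m → ℝ} {B B' : ℕ} {Y Y' : ℝ} {p : Phi m} {γ Λ E E' : ℝ}
    (h : Typ S c B Y p γ Λ E) (hD : 0 < S.D) (hB : B' ≤ B) (hY : Y' ≤ Y) (hE : E ≤ E') :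
    Typ S c B' Y' p γ Λ E' := by
  intro b hb y hy hy'
  refine (h b (hb.trans hB) y hy (hy'.trans hY)).trans ?_
  exact div_le_div_of_nonneg_right hE (by positivity)

theorem Typ.add81 {S : Sys m} {c : Fin m → ℝ} {B : ℕ} {Y : ℝ} {p p' : Phi m} {γ Λ E Λ' E' : ℝ}
    (h : Typ S c B Y p γ Λ E) (h' : Typ S c B Y p' γ Λ' E') :
    Typ S c B Y (p + p') γ (Λ + Λ') (E + E') := by
  intro b hb y hy hy'
  have h1 := h b hb y hy hy'
  have h2 := h' b hb y hy hy'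
  rw [jet_add5, add_div]
  have e1 : jet S c b p y + jet S c b p' y - (Λ + Λ') * mdl S γ b y
      = (jet S c b p y - Λ * mdl S γ b y) + (jet S c b p' y - Λ' * mdl S γ b y) := by ring
  rw [e1]
  exact (abs_add_le _ _).trans (add_le_add h1 h2)

theorem Typ.sub81 {S : Sys m} {c : Fin m → ℝ} {B : ℕ} {Y : ℝ} {p p' : Phi m} {γ Λ E Λ' E' : ℝ}
    (h : Typ S c B Y p γ Λ E) (h' : Typ S c B Y p' γ Λ' E') :
    Typ S c B Y (p - p') γ (Λ - Λ') (E + E') := by
  intro b hb y hy hy'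
  have h1 := h b hb y hy hy'
  have h2 := h' b hb y hy hy'
  rw [jet_sub, add_div]
  have e1 : jet S c b p y - jet S c b p' y - (Λ - Λ') * mdl S γ b y
      = (jet S c b p y - Λ * mdl S γ b y) - (jet S c b p' y - Λ' * mdl S γ b y) := by ring
  rw [e1]
  exact (abs_sub _ _).trans (add_le_add h1 h2)

theorem Typ.zero81 (S : Sys m) (c : Fin m → ℝ) (B : ℕ) (Y : ℝ) (γ : ℝ) :
    Typ S c B Y 0 γ 0 0 := by
  intro b hb y hy hy'
  rw [jet_zero]
  simp

/-- shifted differences -/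
theorem Typ_diff81 (γ : ℝ) (B : ℕ) : ∃ C : ℝ, 1 ≤ C ∧ ∀ (m : ℕ) (S : Sys m) (c : Fin m → ℝ),
    1 ≤ S.D → 0 ≤ S.ρ → S.ρ ≤ 1 → ∀ (Y : ℝ) (M : ℕ), Y + M ≤ 4 * S.D → ∀ (p : Phi m) (Λ E : ℝ),
    0 ≤ E → Typ S c (B + 1) (Y + M) p γ Λ E → ∀ h : ℕ, h < M →
    Typ S c B Y (tau h p - p) γ 0 (C * (|Λ| + E) * (h / S.D)) ∧
    Typ S c B Y (tau h p - p) (γ - 1) (γ * Λ * (h / S.D))
      (E * (h / S.D) + C * |Λ| * (h / S.D) ^ 2) := by
  choose C0 hC0 hC using mdl_bound γ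
  refine ⟨1 + ∑ b ∈ range (B + 3), C0 b, ?_, ?_⟩
  · have : 0 ≤ ∑ b ∈ range (B + 3), C0 b := Finset.sum_nonneg fun b _ => (hC0 b).le
    linarith
  intro m S c hD1 hρ0 hρ1 Y M hYM p Λ E hE hT h hh
  set C := 1 + ∑ b ∈ range (B + 3), C0 b with hCdef
  have hD : 0 < S.D := by linarith
  have hC1 : 1 ≤ C := by
    have : 0 ≤ ∑ b ∈ range (B + 3), C0 b := Finset.sum_nonneg fun b _ => (hC0 b).le
    rw [hCdef]; linarith
  have hmdl : ∀ b, b < B + 3 → ∀ y, S.D ≤ y → y ≤ 4 * S.D → |mdl S γ b y| ≤ C / S.D ^ b := by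
    intro b hb y hy hy4
    refine (hC b m S hD hρ0 (by linarith) y hy hy4).trans ?_
    refine div_le_div_of_nonneg_right ?_ (by positivity)
    have h1 : C0 b ≤ ∑ b ∈ range (B + 3), C0 b :=
      Finset.single_le_sum (fun i _ => (hC0 i).le) (Finset.mem_range.2 hb)
    rw [hCdef]; linarith
  have hh0 : (0 : ℝ) ≤ h := Nat.cast_nonneg _
  have hhM : (h : ℝ) ≤ M := by exact_mod_cast hh.le
  have key : ∀ b ≤ B, ∀ y, S.D ≤ y → y ≤ Y → ∀ κ A : ℝ,
      (∀ z, y ≤ z → z ≤ y + h → |jet S c (b + 1) p z - κ| ≤ A) →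
      |jet S c b (tau h p - p) y - h * κ| ≤ A * h := by
    intro b hb y hy hyY κ A hA
    have hy0 : 0 < y := hD.trans_le hy
    have hd : ∀ z ∈ Set.Icc y (y + h), HasDerivWithinAt (fun z => jet S c b p z - z * κ)
        (jet S c (b + 1) p z - κ) (Set.Icc y (y + h)) z := by
      intro z hz
      have h1 := jet_hasDeriv S c hD hρ0 b p z (hy0.trans_le hz.1)
      have h2 : HasDerivAt (fun z : ℝ => z * κ) κ z := by
        simpa using (hasDerivAt_id z).mul_const κ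
      exact (h1.sub h2).hasDerivWithinAt
    have h1 := (convex_Icc y (y + h)).norm_image_sub_le_of_norm_hasDerivWithin_le hd
      (C := A) (fun z hz => by rw [Real.norm_eq_abs]; exact hA z hz.1 hz.2)
      (Set.left_mem_Icc.2 (by linarith)) (Set.right_mem_Icc.2 (by linarith))
    rw [Real.norm_eq_abs, Real.norm_eq_abs, add_sub_cancel_left, abs_of_nonneg hh0] at h1
    rw [jet_sub, jet_tau]
    have e1 : jet S c b p (y + h) - jet S c b p y - h * κ
        = jet S c b p (y + h) - (y + h) * κ - (jet S c b p y - y * κ) := by ring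
    rw [e1]
    exact h1
  have hrange : ∀ y, S.D ≤ y → y ≤ Y → ∀ z, y ≤ z → z ≤ y + h →
      S.D ≤ z ∧ z ≤ Y + M ∧ z ≤ 4 * S.D := by
    intro y hy hyY z hz hz'
    refine ⟨hy.trans hz, by linarith, by linarith⟩
  constructor
  · intro b hb y hy hyY
    have h1 := key b hb y hy hyY 0 ((C * (|Λ| + E)) / S.D ^ (b + 1)) (by
      intro z hz hz'
      obtain ⟨hz1, hz2, hz3⟩ := hrange y hy hyY z hz hz'
      have h2 := hT (b + 1) (by omega) z hz1 hz2
      have h3 := hmdl (b + 1) (by omega) z hz1 hz3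
      rw [sub_zero]
      have e1 : jet S c (b + 1) p z = (jet S c (b + 1) p z - Λ * mdl S γ (b + 1) z)
        + Λ * mdl S γ (b + 1) z := by ring
      rw [e1]
      refine (abs_add_le _ _).trans ?_
      rw [abs_mul]
      have h4 := mul_le_mul_of_nonneg_left h3 (abs_nonneg Λ)
      have h5 : E / S.D ^ (b + 1) ≤ C * E / S.D ^ (b + 1) :=
        div_le_div_of_nonneg_right (by nlinarith) (by positivity)
      have e2 : C * (|Λ| + E) / S.D ^ (b + 1)
          = C * E / S.D ^ (b + 1) + |Λ| * (C / S.D ^ (b + 1)) := by ring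
      rw [e2]
      linarith)
    rw [mul_zero, sub_zero] at h1
    rw [zero_mul, sub_zero]
    refine h1.trans (le_of_eq ?_)
    rw [pow_succ]
    field_simp
  · intro b hb y hy hyY
    have h1 := key b hb y hy hyY (Λ * mdl S γ (b + 1) y)
      (E / S.D ^ (b + 1) + |Λ| * (C / S.D ^ (b + 2) * h)) (by
      intro z hz hz'
      obtain ⟨hz1, hz2, hz3⟩ := hrange y hy hyY z hz hz'
      have h2 := hT (b + 1) (by omega) z hz1 hz2
      have hy0 : 0 < y := hD.trans_le hy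
      have hd : ∀ x ∈ Set.Icc y (y + h), HasDerivWithinAt (mdl S γ (b + 1))
          (mdl S γ (b + 1 + 1) x) (Set.Icc y (y + h)) x := fun x hx =>
        (mdl_hasDeriv S γ hD hρ0 (b + 1) x (hy0.trans_le hx.1)).hasDerivWithinAt
      have h3 := (convex_Icc y (y + h)).norm_image_sub_le_of_norm_hasDerivWithin_le hd
        (C := C / S.D ^ (b + 2)) (fun x hx => by
          rw [Real.norm_eq_abs]
          obtain ⟨hx1, _, hx3⟩ := hrange y hy hyY x hx.1 hx.2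
          exact hmdl (b + 2) (by omega) x hx1 hx3)
        (Set.left_mem_Icc.2 (by linarith)) (Set.mem_Icc.2 ⟨hz, hz'⟩)
      rw [Real.norm_eq_abs, Real.norm_eq_abs, abs_of_nonneg (by linarith : 0 ≤ z - y)] at h3
      have h3' : |mdl S γ (b + 1) z - mdl S γ (b + 1) y| ≤ C / S.D ^ (b + 2) * h :=
        h3.trans (mul_le_mul_of_nonneg_left (by linarith) (by positivity))
      have e1 : jet S c (b + 1) p z - Λ * mdl S γ (b + 1) y
        = (jet S c (b + 1) p z - Λ * mdl S γ (b + 1) z)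
        + Λ * (mdl S γ (b + 1) z - mdl S γ (b + 1) y) := by ring
      rw [e1]
      refine (abs_add_le _ _).trans ?_
      rw [abs_mul]
      have h4 := mul_le_mul_of_nonneg_left h3' (abs_nonneg Λ)
      linarith)
    have e0 : γ * Λ * (h / S.D) * mdl S (γ - 1) b y = h * (Λ * mdl S γ (b + 1) y) := by
      rw [mdl_succ S γ hD]
      ring
    rw [e0]
    refine h1.trans (le_of_eq ?_)
    rw [pow_succ, pow_succ, pow_succ]
    field_simp
    try ring

/-- absorbing constants -/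
theorem absorb81 (C : ℝ) : ∃ K : ℕ, ∀ δ : ℝ, 0 < δ → δ ≤ 1 / 2 → C ≤ δ⁻¹ ^ K := by
  obtain ⟨K, hK⟩ := pow_unbounded_of_one_lt C (one_lt_two : (1 : ℝ) < 2)
  refine ⟨K, fun δ h0 h1 => hK.le.trans ?_⟩
  refine pow_le_pow_left₀ (by norm_num) ?_ K
  rw [le_inv_comm₀ (by norm_num) h0]
  linarith

theorem Tp.mono81 {S : Sys m} {c : Fin m → ℝ} {δ : ℝ} {n n' B B' : ℕ} {Y Y' γ lam w : ℝ}
    {p : Phi m} (h : Tp S c δ n B Y γ lam w p) (hD : 0 < S.D) (hδ0 : 0 < δ) (hδ1 : δ ≤ 1 / 2)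
    (hlam : 0 ≤ lam) (hw : 0 ≤ w) (hn : n ≤ n') (hB : B' ≤ B) (hY : Y' ≤ Y) :
    Tp S c δ n' B' Y' γ lam w p := by
  obtain ⟨Λ, h1, h2, h3⟩ := h
  have hi : 1 ≤ δ⁻¹ := (one_le_inv₀ hδ0).2 (by linarith)
  have hp : δ⁻¹ ^ n ≤ δ⁻¹ ^ n' := pow_le_pow_right₀ hi hn
  have hq : δ ^ n' ≤ δ ^ n := pow_le_pow_of_le_one hδ0.le (by linarith) hn
  refine ⟨Λ, (mul_le_mul_of_nonneg_right hq hlam).trans h1,
    h2.trans (mul_le_mul_of_nonneg_right hp hlam), h3.mono81 hD hB hY ?_⟩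
  exact mul_le_mul_of_nonneg_right (mul_le_mul_of_nonneg_right hp hlam) hw

/-- the lower part of the invariants -/
theorem qpart81 (γ : ℝ) (n B : ℕ) : ∃ n' : ℕ, n ≤ n' ∧
    ∀ (m : ℕ) (S : Sys m) (c : Fin m → ℝ) (δ Y lam w : ℝ) (M : ℕ), 1 ≤ S.D → 0 ≤ S.ρ → S.ρ ≤ 1 →
      0 < δ → δ ≤ 1 / 2 → 0 < lam → (M : ℝ) / S.D ≤ w → w ≤ 1 → Y ≤ 3 * S.D →
      ∀ g p : Phi m, Tp S c δ n (B + 1) (Y + M) γ lam w g →
        Tp S c δ n (B + 1) (Y + M) γ lam w (g - p) → ∀ h : ℕ, h < M →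
        Tp S c δ n' B Y γ lam w (tau h g - p) ∧ Tp S c δ n' B Y γ lam w (g - tau h p) ∧
        Tp S c δ n' B Y γ lam w (tau h (g - p)) := by
  obtain ⟨C, hC1, hC⟩ := Typ_diff81 γ B
  obtain ⟨K, hK⟩ := absorb81 (1 + 4 * C)
  refine ⟨n + K, Nat.le_add_right _ _, ?_⟩
  intro m S c δ Y lam w M hD1 hρ0 hρ1 hδ0 hδ1 hlam hMw hw1 hY g p hg hgp h hh
  have hD : 0 < S.D := by linarith
  have hM0 : (0 : ℝ) ≤ M := Nat.cast_nonneg _
  have hw0 : 0 ≤ w := (div_nonneg hM0 hD.le).trans hMw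
  have hMD : (M : ℝ) ≤ S.D := by
    have := hMw.trans hw1
    rwa [div_le_one hD] at this
  have hYM : Y + M ≤ 4 * S.D := by linarith
  have hh0 : (0 : ℝ) ≤ h := Nat.cast_nonneg _
  have hhM : (h : ℝ) ≤ M := by exact_mod_cast hh.le
  have hhD0 : 0 ≤ (h : ℝ) / S.D := div_nonneg hh0 hD.le
  have hhD : (h : ℝ) / S.D ≤ w := (div_le_div_of_nonneg_right hhM hD.le).trans hMw
  have hi : 1 ≤ δ⁻¹ := (one_le_inv₀ hδ0).2 (by linarith)
  obtain ⟨Λg, hg1, hg2, hg3⟩ := hg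
  obtain ⟨Λ, h1, h2, h3⟩ := hgp
  set a := δ⁻¹ ^ n with ha
  have ha1 : 1 ≤ a := one_le_pow₀ hi
  have ha0 : 0 < a := by linarith
  have hp3 : Typ S c (B + 1) (Y + M) p γ (Λg - Λ) (a * lam * w + a * lam * w) := by
    have := hg3.sub81 h3
    rwa [sub_sub_cancel] at this
  have hE0 : 0 ≤ a * lam * w := by positivity
  have dg := (hC m S c hD1 hρ0 hρ1 Y M hYM g Λg _ hE0 hg3 h hh).1
  have dp := (hC m S c hD1 hρ0 hρ1 Y M hYM p (Λg - Λ) _ (by linarith) hp3 h hh).1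
  have dgp := (hC m S c hD1 hρ0 hρ1 Y M hYM (g - p) Λ _ hE0 h3 h hh).1
  have h3' : Typ S c B Y (g - p) γ Λ (a * lam * w) :=
    h3.mono81 hD (Nat.le_succ _) (by linarith) le_rfl
  have hKδ := hK δ hδ0 hδ1
  have hC0 : 0 < C := by linarith
  have hpow : δ⁻¹ ^ (n + K) = a * δ⁻¹ ^ K := by rw [pow_add]
  have fin : a * lam * w + C * (2 * (a * lam) + 2 * (a * lam * w)) * (h / S.D)
      ≤ δ⁻¹ ^ (n + K) * lam * w := by
    have hal : 0 ≤ a * lam := by positivity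
    have e1 : C * (2 * (a * lam) + 2 * (a * lam * w)) * (h / S.D)
        ≤ C * (2 * (a * lam) + 2 * (a * lam * 1)) * w := by
      refine mul_le_mul ?_ hhD hhD0 (by positivity)
      refine mul_le_mul_of_nonneg_left ?_ hC0.le
      have := mul_le_mul_of_nonneg_left hw1 hal
      linarith
    have e2 : a * lam * w + C * (2 * (a * lam) + 2 * (a * lam * 1)) * w
        = (1 + 4 * C) * (a * lam * w) := by ring
    have e3 : (1 + 4 * C) * (a * lam * w) ≤ δ⁻¹ ^ K * (a * lam * w) :=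
      mul_le_mul_of_nonneg_right hKδ hE0
    have e4 : δ⁻¹ ^ K * (a * lam * w) = δ⁻¹ ^ (n + K) * lam * w := by rw [hpow]; ring
    linarith
  have fin' : ∀ L E : ℝ, L ≤ 2 * (a * lam) → E ≤ 2 * (a * lam * w) →
      a * lam * w + C * (L + E) * (h / S.D) ≤ δ⁻¹ ^ (n + K) * lam * w := by
    intro L E hL hE
    refine le_trans (add_le_add_right ?_ _) fin
    exact mul_le_mul_of_nonneg_right (mul_le_mul_of_nonneg_left (add_le_add hL hE) hC0.le) hhD0
  have low : δ ^ (n + K) * lam ≤ |Λ| :=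
    (mul_le_mul_of_nonneg_right (pow_le_pow_of_le_one hδ0.le (by linarith)
      (Nat.le_add_right _ _)) hlam.le).trans h1
  have upp : |Λ| ≤ δ⁻¹ ^ (n + K) * lam :=
    h2.trans (mul_le_mul_of_nonneg_right (pow_le_pow_right₀ hi (Nat.le_add_right _ _)) hlam.le)
  have hal : 0 ≤ a * lam := by positivity
  have hdiff : |Λg - Λ| ≤ 2 * (a * lam) := (abs_sub _ _).trans (by linarith)
  refine ⟨⟨Λ, low, upp, ?_⟩, ⟨Λ, low, upp, ?_⟩, ⟨Λ, low, upp, ?_⟩⟩
  · have e := h3'.add81 dg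
    rw [add_zero, sub_add_sub_comm, add_comm g, add_sub_add_right_eq_sub] at e
    exact e.mono81 hD le_rfl le_rfl (fin' _ _ (by linarith) (by linarith))
  · have e := h3'.sub81 dp
    have e1 : g - p - (tau h p - p) = g - tau h p := by abel
    rw [sub_zero, e1] at e
    exact e.mono81 hD le_rfl le_rfl (fin' _ _ hdiff (by linarith))
  · have e := h3'.add81 dgp
    rw [add_zero, add_sub_cancel] at e
    exact e.mono81 hD le_rfl le_rfl (fin' _ _ (by linarith) (by linarith))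

/-- few shifts are bad for one element -/
theorem bad_card81 (M : ℕ) (Λ κ ε : ℝ) (hκ : 0 < |κ|) (hε : 0 ≤ ε) :
    (((range M).filter fun h : ℕ => |Λ + κ * h| < ε).card : ℝ) ≤ 2 * ε / |κ| + 1 := by
  set s := (range M).filter fun h : ℕ => |Λ + κ * h| < ε with hs
  rcases s.eq_empty_or_nonempty with h0 | h0
  · rw [h0, Finset.card_empty, Nat.cast_zero]
    positivity
  · have hsub : s ⊆ Finset.Icc (s.min' h0) (s.max' h0) := fun x hx =>
      Finset.mem_Icc.2 ⟨s.min'_le x hx, s.le_max' x hx⟩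
    have hle : s.min' h0 ≤ s.max' h0 := s.min'_le _ (s.max'_mem h0)
    have hc := Finset.card_le_card hsub
    rw [Nat.card_Icc] at hc
    have hc' : (s.card : ℝ) ≤ (s.max' h0 : ℝ) - (s.min' h0 : ℝ) + 1 := by
      have h1 : (s.card : ℝ) + (s.min' h0 : ℝ) ≤ (s.max' h0 : ℝ) + 1 := by
        have : s.card + s.min' h0 ≤ s.max' h0 + 1 := by omega
        exact_mod_cast this
      linarith
    have h1 : |Λ + κ * (s.max' h0 : ℕ)| < ε := (Finset.mem_filter.1 (s.max'_mem h0)).2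
    have h2 : |Λ + κ * (s.min' h0 : ℕ)| < ε := (Finset.mem_filter.1 (s.min'_mem h0)).2
    have h3 : |κ * ((s.max' h0 : ℝ) - (s.min' h0 : ℝ))| ≤ 2 * ε := by
      have e1 : κ * ((s.max' h0 : ℝ) - (s.min' h0 : ℝ))
          = (Λ + κ * (s.max' h0 : ℕ)) - (Λ + κ * (s.min' h0 : ℕ)) := by ring
      rw [e1]
      exact (abs_sub _ _).trans (by linarith)
    rw [abs_mul] at h3
    have h4 : |(s.max' h0 : ℝ) - (s.min' h0 : ℝ)| ≤ 2 * ε / |κ| := by
      rw [le_div_iff₀ hκ]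
      linarith
    have h5 := le_abs_self ((s.max' h0 : ℝ) - (s.min' h0 : ℝ))
    linarith

/-- the upper part of the invariants -/
theorem gpart81 (γ : ℝ) (hγ : γ ≠ 0) (n B : ℕ) : ∃ n' : ℕ, n ≤ n' ∧
    ∀ (m : ℕ) (S : Sys m) (c : Fin m → ℝ) (δ Y lam w : ℝ) (M : ℕ), 1 ≤ S.D → 0 ≤ S.ρ → S.ρ ≤ 1 →
      0 < δ → δ ≤ 1 / 2 → 0 < lam → δ⁻¹ ^ n' ≤ M → (M : ℝ) / S.D ≤ w → w ≤ 1 → Y ≤ 3 * S.D →
      ∀ (g0 : Phi m) (t : List (Phi m)),
        (∀ g ∈ g0 :: t, Tp S c δ n (B + 1) (Y + M) γ lam w g) →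
        (∀ g ∈ t, Tp S c δ n (B + 1) (Y + M) (γ - 1) (lam * M / S.D) w (g - g0)) →
        (g0 :: t).length ≤ n →
        ∃ Bad : Finset ℕ, (Bad.card : ℝ) ≤ δ ^ (2 * n) * M / 32 ∧
          ∀ h : ℕ, 1 ≤ h → h < M → h ∉ Bad → ∀ g ∈ g0 :: t,
            Tp S c δ n' B Y (γ - 1) (lam * M / S.D) w (tau h g - g0) := by
  classical
  obtain ⟨C, hC1, hC⟩ := Typ_diff81 γ B
  obtain ⟨K1, hK1⟩ := absorb81 (2 + C)
  obtain ⟨K2, hK2⟩ := absorb81 (1 + |γ|)
  obtain ⟨K3, hK3⟩ := absorb81 (128 * n / |γ|)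
  obtain ⟨K4, hK4⟩ := absorb81 (64 * n)
  refine ⟨3 * n + K1 + K2 + K3 + K4, by omega, ?_⟩
  intro m S c δ Y lam w M hD1 hρ0 hρ1 hδ0 hδ1 hlam hM hMw hw1 hY g0 t hg hgg hlen
  set n' := 3 * n + K1 + K2 + K3 + K4 with hn'
  have hD : 0 < S.D := by linarith
  have hi : 1 ≤ δ⁻¹ := (one_le_inv₀ hδ0).2 (by linarith)
  have hM1 : (1 : ℝ) ≤ M := (one_le_pow₀ hi).trans hM
  have hM0 : (0 : ℝ) < M := by linarith
  have hw0 : 0 ≤ w := (div_nonneg hM0.le hD.le).trans hMw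
  have hMD : (M : ℝ) ≤ S.D := by
    have := hMw.trans hw1
    rwa [div_le_one hD] at this
  have hYM : Y + M ≤ 4 * S.D := by linarith
  set lam' := lam * M / S.D with hlam'
  have hlam'0 : 0 < lam' := by positivity
  have hγ0 : 0 < |γ| := abs_pos.2 hγ
  -- the coefficients
  have hg' : ∀ g : Phi m, ∃ Λ : ℝ, g ∈ g0 :: t → (δ ^ n * lam ≤ |Λ| ∧ |Λ| ≤ δ⁻¹ ^ n * lam ∧
      Typ S c (B + 1) (Y + M) g γ Λ (δ⁻¹ ^ n * lam * w)) := by
    intro g
    by_cases h : g ∈ g0 :: t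
    · obtain ⟨Λ, hΛ⟩ := hg g h
      exact ⟨Λ, fun _ => hΛ⟩
    · exact ⟨0, fun h' => absurd h' h⟩
  choose L hL using hg'
  have hgg' : ∀ g : Phi m, ∃ Λ : ℝ, g ∈ g0 :: t → (|Λ| ≤ δ⁻¹ ^ n * lam' ∧
      Typ S c (B + 1) (Y + M) (g - g0) (γ - 1) Λ (δ⁻¹ ^ n * lam' * w)) := by
    intro g
    by_cases h : g ∈ g0 :: t
    · rcases List.mem_cons.1 h with h1 | h1
      · refine ⟨0, fun _ => ⟨by rw [abs_zero]; positivity, ?_⟩⟩
        rw [h1, sub_self]
        exact (Typ.zero81 S c (B + 1) (Y + M) (γ - 1)).mono81 hD le_rfl le_rfl (by positivity)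
      · obtain ⟨Λ, _, hΛ, hΛ'⟩ := hgg g h1
        exact ⟨Λ, fun _ => ⟨hΛ, hΛ'⟩⟩
    · exact ⟨0, fun h' => absurd h' h⟩
  choose L' hL' using hgg'
  set ε := δ ^ (3 * n + K3) * lam' with hε
  have hε0 : 0 ≤ ε := by positivity
  have hδ1' : δ ≤ 1 := by linarith
  refine ⟨(g0 :: t).toFinset.biUnion fun g =>
    (range M).filter fun h : ℕ => |L' g + (γ * L g / S.D) * h| < ε, ?_, ?_⟩
  · have hcard : ∀ g ∈ (g0 :: t).toFinset,
        (((range M).filter fun h : ℕ => |L' g + (γ * L g / S.D) * h| < ε).card : ℝ)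
          ≤ 2 * ε / (|γ| * (δ ^ n * lam) / S.D) + 1 := by
      intro g hgm
      rw [List.mem_toFinset] at hgm
      obtain ⟨h1, h2, h3⟩ := hL g hgm
      have hpos : 0 < |γ| * (δ ^ n * lam) / S.D := by positivity
      have h4 : |γ| * (δ ^ n * lam) / S.D ≤ |γ * L g / S.D| := by
        rw [abs_div, abs_mul, abs_of_pos hD]
        exact div_le_div_of_nonneg_right (mul_le_mul_of_nonneg_left h1 hγ0.le) hD.le
      refine (bad_card81 M (L' g) _ ε (hpos.trans_le h4) hε0).trans ?_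
      have := div_le_div_of_nonneg_left (by positivity : 0 ≤ 2 * ε) hpos h4
      linarith
    have h1 : ((((g0 :: t).toFinset.biUnion fun g =>
        (range M).filter fun h : ℕ => |L' g + (γ * L g / S.D) * h| < ε).card : ℕ) : ℝ)
        ≤ ∑ g ∈ (g0 :: t).toFinset,
          (((range M).filter fun h : ℕ => |L' g + (γ * L g / S.D) * h| < ε).card : ℝ) := by
      exact_mod_cast Finset.card_biUnion_le
    refine h1.trans ((Finset.sum_le_sum hcard).trans ?_)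
    rw [Finset.sum_const, nsmul_eq_mul]
    have h2 : (((g0 :: t).toFinset.card : ℕ) : ℝ) ≤ n := by
      exact_mod_cast (List.toFinset_card_le _).trans hlen
    have h3 : 0 ≤ 2 * ε / (|γ| * (δ ^ n * lam) / S.D) + 1 := by positivity
    refine (mul_le_mul_of_nonneg_right h2 h3).trans ?_
    have e1 : 2 * ε / (|γ| * (δ ^ n * lam) / S.D) = 2 * δ ^ (2 * n + K3) * M / |γ| := by
      rw [hε, hlam']
      have : δ ^ (3 * n + K3) = δ ^ (2 * n + K3) * δ ^ n := by rw [← pow_add]; congr 1; ring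
      rw [this]
      have := hδ0.ne'
      field_simp
    rw [e1]
    have hd2 : 0 < δ ^ (2 * n) := by positivity
    have e2 : (n : ℝ) * (2 * δ ^ (2 * n + K3) * M / |γ|) ≤ δ ^ (2 * n) * M / 64 := by
      have h4 := hK3 δ hδ0 hδ1
      have h5 : 128 * n / |γ| * δ ^ K3 ≤ 1 := by
        have := mul_le_mul_of_nonneg_right h4 (by positivity : 0 ≤ δ ^ K3)
        rwa [← mul_pow, inv_mul_cancel₀ hδ0.ne', one_pow] at this
      have h6 : (n : ℝ) * (2 * δ ^ (2 * n + K3) * M / |γ|)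
          = (δ ^ (2 * n) * M / 64) * (128 * n / |γ| * δ ^ K3) := by
        rw [pow_add]; ring
      rw [h6]
      have : 0 ≤ δ ^ (2 * n) * M / 64 := by positivity
      nlinarith
    have e3 : (n : ℝ) ≤ δ ^ (2 * n) * M / 64 := by
      have h4 := hK4 δ hδ0 hδ1
      have h5 : (64 * n : ℝ) * δ⁻¹ ^ (2 * n) ≤ M := by
        refine (mul_le_mul_of_nonneg_right h4 (by positivity)).trans ?_
        rw [← pow_add]
        exact (pow_le_pow_right₀ hi (by omega)).trans hM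
      have h6 := mul_le_mul_of_nonneg_left h5 hd2.le
      have h7 : δ ^ (2 * n) * ((64 * n : ℝ) * δ⁻¹ ^ (2 * n)) = 64 * n := by
        rw [mul_left_comm, ← mul_pow, mul_inv_cancel₀ hδ0.ne', one_pow, mul_one]
      linarith
    have e4 : δ ^ (2 * n) * M / 32 = δ ^ (2 * n) * M / 64 + δ ^ (2 * n) * M / 64 := by ring
    rw [mul_add, mul_one, e4]
    exact add_le_add e2 e3
  · intro h hh1 hhM hbad g hgm
    have hh0 : (0 : ℝ) ≤ h := Nat.cast_nonneg _
    have hhM' : (h : ℝ) ≤ M := by exact_mod_cast hhM.le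
    have hhD0 : 0 ≤ (h : ℝ) / S.D := div_nonneg hh0 hD.le
    have hhD : (h : ℝ) / S.D ≤ M / S.D := div_le_div_of_nonneg_right hhM' hD.le
    have hhw : (h : ℝ) / S.D ≤ w := hhD.trans hMw
    obtain ⟨a1, a2, a3⟩ := hL g hgm
    obtain ⟨b1, b2⟩ := hL' g hgm
    have hE0 : 0 ≤ δ⁻¹ ^ n * lam * w := by positivity
    have d := (hC m S c hD1 hρ0 hρ1 Y M hYM g (L g) _ hE0 a3 h hhM).2
    have b2' : Typ S c B Y (g - g0) (γ - 1) (L' g) (δ⁻¹ ^ n * lam' * w) :=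
      b2.mono81 hD (Nat.le_succ _) (by linarith) le_rfl
    have e := b2'.add81 d
    have e0 : g - g0 + (tau h g - g) = tau h g - g0 := by abel
    rw [e0] at e
    refine ⟨_, ?_, ?_, e.mono81 hD le_rfl le_rfl ?_⟩
    · have h1 : ¬ |L' g + (γ * L g / S.D) * h| < ε := by
        intro hcon
        exact hbad (Finset.mem_biUnion.2 ⟨g, List.mem_toFinset.2 hgm,
          Finset.mem_filter.2 ⟨Finset.mem_range.2 hhM, hcon⟩⟩)
      push Not at h1
      have e2 : γ * L g / S.D * h = γ * L g * (h / S.D) := by ring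
      rw [e2] at h1
      refine le_trans ?_ h1
      rw [hε]
      exact mul_le_mul_of_nonneg_right (pow_le_pow_of_le_one hδ0.le hδ1' (by omega)) hlam'0.le
    · have h1 : |γ * L g * (h / S.D)| ≤ |γ| * (δ⁻¹ ^ n * lam') := by
        rw [abs_mul, abs_mul, abs_of_nonneg hhD0, mul_assoc]
        refine mul_le_mul_of_nonneg_left ?_ hγ0.le
        calc |L g| * (h / S.D) ≤ (δ⁻¹ ^ n * lam) * (M / S.D) :=
              mul_le_mul a2 hhD hhD0 (by positivity)
          _ = δ⁻¹ ^ n * lam' := by rw [hlam']; ring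
      refine (abs_add_le _ _).trans ?_
      have h2 := hK2 δ hδ0 hδ1
      have h3 : (1 + |γ|) * (δ⁻¹ ^ n * lam') ≤ δ⁻¹ ^ n' * lam' := by
        have h4 : (1 + |γ|) * (δ⁻¹ ^ n * lam') ≤ δ⁻¹ ^ K2 * (δ⁻¹ ^ n * lam') :=
          mul_le_mul_of_nonneg_right h2 (by positivity)
        have h5 : δ⁻¹ ^ K2 * (δ⁻¹ ^ n * lam') = δ⁻¹ ^ (K2 + n) * lam' := by rw [pow_add]; ring
        rw [h5] at h4
        exact h4.trans (mul_le_mul_of_nonneg_right (pow_le_pow_right₀ hi (by omega)) hlam'0.le)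
      have h4 : (1 + |γ|) * (δ⁻¹ ^ n * lam') = δ⁻¹ ^ n * lam' + |γ| * (δ⁻¹ ^ n * lam') := by ring
      linarith
    · have h1 : δ⁻¹ ^ n * lam * w * (h / S.D) ≤ δ⁻¹ ^ n * lam' * w := by
        have := mul_le_mul_of_nonneg_left hhD hE0
        refine this.trans (le_of_eq ?_)
        rw [hlam']; ring
      have h2 : C * |L g| * (h / S.D) ^ 2 ≤ C * (δ⁻¹ ^ n * lam' * w) := by
        have h3 : |L g| * (h / S.D) ^ 2 ≤ (δ⁻¹ ^ n * lam) * ((M / S.D) * w) := by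
          refine mul_le_mul a2 ?_ (by positivity) (by positivity)
          rw [pow_two]
          exact mul_le_mul hhD hhw hhD0 (by positivity)
        have h4 := mul_le_mul_of_nonneg_left h3 (by linarith : 0 ≤ C)
        have e1 : C * |L g| * (h / S.D) ^ 2 = C * (|L g| * (h / S.D) ^ 2) := by ring
        rw [e1]
        refine h4.trans (le_of_eq ?_)
        rw [hlam']; ring
      have h3 : δ⁻¹ ^ n * lam' * w + (δ⁻¹ ^ n * lam * w * (h / S.D) + C * |L g| * (h / S.D) ^ 2)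
          ≤ (2 + C) * (δ⁻¹ ^ n * lam' * w) := by
        have : (2 + C) * (δ⁻¹ ^ n * lam' * w) = δ⁻¹ ^ n * lam' * w
          + (δ⁻¹ ^ n * lam' * w + C * (δ⁻¹ ^ n * lam' * w)) := by ring
        linarith
      refine h3.trans ?_
      have h4 : (2 + C) * (δ⁻¹ ^ n * lam' * w) ≤ δ⁻¹ ^ K1 * (δ⁻¹ ^ n * lam' * w) :=
        mul_le_mul_of_nonneg_right (hK1 δ hδ0 hδ1) (by positivity)
      have h5 : δ⁻¹ ^ K1 * (δ⁻¹ ^ n * lam' * w) = δ⁻¹ ^ (K1 + n) * lam' * w := by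
        rw [pow_add]; ring
      rw [h5] at h4
      refine h4.trans ?_
      exact mul_le_mul_of_nonneg_right (mul_le_mul_of_nonneg_right
        (pow_le_pow_right₀ hi (by omega)) hlam'0.le) hw0

end Types81

/-- one elimination step: outside a small bad set of shifts the invariants persist -/
theorem type_step (γ : ℝ) (hγ : γ ≠ 0) (n B : ℕ) : ∃ n' : ℕ, n ≤ n' ∧
    ∀ (m : ℕ) (S : Sys m) (c : Fin m → ℝ) (δ Y lam w : ℝ) (M : ℕ), 1 ≤ S.D → 0 ≤ S.ρ → S.ρ ≤ 1 →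
      0 < δ → δ ≤ 1 / 2 → 0 < lam → δ⁻¹ ^ n' ≤ M → (M : ℝ) / S.D ≤ w → w ≤ δ ^ n' →
      Y ≤ 3 * S.D →
      ∀ Lq Lg : List (Phi m), TG S c δ M n (B + 1) (Y + M) γ lam w Lq Lg → ∀ q ∈ Lq,
      ∃ Bad : Finset ℕ, (Bad.card : ℝ) ≤ δ ^ (2 * n) * M / 32 ∧
        ∀ h : ℕ, 1 ≤ h → h < M → h ∉ Bad →
          TG S c δ M n' B Y γ lam w
            (Lq.map (fun p => p - q) ++ Lq.map (fun p => tau h p - q))
            (Lg.map (fun p => p - q) ++ Lg.map (fun p => tau h p - q)) := by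
  obtain ⟨n1, hn1, H1⟩ := qpart81 γ n B
  obtain ⟨n2, hn2, H2⟩ := gpart81 γ hγ n B
  refine ⟨n1 + n2 + 3 * n + 1, by omega, ?_⟩
  intro m S c δ Y lam w M hD1 hρ0 hρ1 hδ0 hδ1 hlam hM hMw hwδ hY Lq Lg hT q hq
  set n' := n1 + n2 + 3 * n + 1 with hn'
  have hD : 0 < S.D := by linarith
  have hi : 1 ≤ δ⁻¹ := (one_le_inv₀ hδ0).2 (by linarith)
  have hM0 : (0 : ℝ) ≤ M := Nat.cast_nonneg _
  have hw0 : 0 ≤ w := (div_nonneg hM0 hD.le).trans hMw
  have hw1 : w ≤ 1 := hwδ.trans (pow_le_one₀ hδ0.le (by linarith))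
  have hlam' : 0 ≤ lam * M / S.D := by positivity
  cases hLg : Lg with
  | nil => exact absurd hLg hT.ne
  | cons g0 t =>
    have hq0 : ∀ g ∈ g0 :: t, Tp S c δ n (B + 1) (Y + M) γ lam w g := by
      intro g hg
      have := hT.q g (by rw [hLg]; exact hg) 0 List.mem_cons_self
      rwa [sub_zero] at this
    obtain ⟨Bad, hBad, HB⟩ := H2 m S c δ Y lam w M hD1 hρ0 hρ1 hδ0 hδ1 hlam
      ((pow_le_pow_right₀ hi (by omega)).trans hM) hMw hw1 hY g0 t hq0 (hT.g g0 t hLg)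
      (by rw [← hLg]; exact hT.lg)
    refine ⟨Bad, hBad, fun h hh1 hhM hbad => ?_⟩
    have HB' := HB h hh1 hhM hbad
    -- typed differences
    have T0 : ∀ g ∈ g0 :: t, ∀ p ∈ (0 : Phi m) :: Lq, Tp S c δ n' B Y γ lam w (g - p) := by
      intro g hg p hp
      exact (hT.q g (by rw [hLg]; exact hg) p hp).mono81 hD hδ0 hδ1 hlam.le hw0 (by omega)
        (Nat.le_succ _) (by linarith)
    have T1 : ∀ g ∈ g0 :: t, ∀ p ∈ (0 : Phi m) :: Lq,
        Tp S c δ n' B Y γ lam w (tau h g - p) ∧ Tp S c δ n' B Y γ lam w (g - tau h p) ∧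
        Tp S c δ n' B Y γ lam w (tau h (g - p)) := by
      intro g hg p hp
      obtain ⟨h1, h2, h3⟩ := H1 m S c δ Y lam w M hD1 hρ0 hρ1 hδ0 hδ1 hlam hMw hw1 hY g p
        (hq0 g hg) (hT.q g (by rw [hLg]; exact hg) p hp) h hhM
      exact ⟨h1.mono81 hD hδ0 hδ1 hlam.le hw0 (by omega) le_rfl le_rfl,
        h2.mono81 hD hδ0 hδ1 hlam.le hw0 (by omega) le_rfl le_rfl,
        h3.mono81 hD hδ0 hδ1 hlam.le hw0 (by omega) le_rfl le_rfl⟩
    have hqc : q ∈ (0 : Phi m) :: Lq := List.mem_cons_of_mem _ hq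
    constructor
    · intro g' hg' p' hp'
      rw [List.mem_append, List.mem_map, List.mem_map] at hg'
      rw [List.mem_cons, List.mem_append, List.mem_map, List.mem_map] at hp'
      rcases hg' with ⟨g, hg, rfl⟩ | ⟨g, hg, rfl⟩
      · rcases hp' with rfl | ⟨p, hp, rfl⟩ | ⟨p, hp, rfl⟩
        · rw [sub_zero]; exact T0 g hg q hqc
        · rw [sub_sub_sub_cancel_right]; exact T0 g hg p (List.mem_cons_of_mem _ hp)
        · rw [sub_sub_sub_cancel_right]; exact (T1 g hg p (List.mem_cons_of_mem _ hp)).2.1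
      · rcases hp' with rfl | ⟨p, hp, rfl⟩ | ⟨p, hp, rfl⟩
        · rw [sub_zero]; exact (T1 g hg q hqc).1
        · rw [sub_sub_sub_cancel_right]; exact (T1 g hg p (List.mem_cons_of_mem _ hp)).1
        · rw [sub_sub_sub_cancel_right, ← map_sub]
          exact (T1 g hg p (List.mem_cons_of_mem _ hp)).2.2
    · intro g0' t' ht' g' hg'
      rw [List.map_cons, List.cons_append, List.cons.injEq] at ht'
      obtain ⟨h1, h2⟩ := ht'
      rw [← h2, List.mem_append, List.mem_map, List.mem_map] at hg'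
      rw [← h1]
      rcases hg' with ⟨g, hg, rfl⟩ | ⟨g, hg, rfl⟩
      · rw [sub_sub_sub_cancel_right]
        exact (hT.g g0 t hLg g hg).mono81 hD hδ0 hδ1 hlam' hw0 (by omega) (Nat.le_succ _)
          (by linarith)
      · rw [sub_sub_sub_cancel_right]
        exact (HB' g hg).mono81 hD hδ0 hδ1 hlam' hw0 (by omega) le_rfl le_rfl
    · intro p' hp'
      rw [List.mem_append, List.mem_map, List.mem_map] at hp'
      rcases hp' with ⟨p, hp, rfl⟩ | ⟨p, hp, rfl⟩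
      · exact ((hT.bq p hp).sub (hT.bq q hq)).mono (by omega)
      · exact (((hT.bq p hp).tau hhM).sub (hT.bq q hq)).mono (by omega)
    · intro p' hp'
      rw [List.mem_append, List.mem_map, List.mem_map] at hp'
      rcases hp' with ⟨p, hp, rfl⟩ | ⟨p, hp, rfl⟩
      · exact ((hT.bg p (by rw [hLg]; exact hp)).sub (hT.bq q hq)).mono (by omega)
      · exact (((hT.bg p (by rw [hLg]; exact hp)).tau hhM).sub (hT.bq q hq)).mono (by omega)
    · have := hT.lq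
      rw [List.length_append, List.length_map, List.length_map]
      omega
    · have := hT.lg
      rw [hLg] at this
      rw [List.length_append, List.length_map, List.length_map]
      omega
    · simp

/-- the last step of a round -/
theorem type_final (γ : ℝ) (hγ : γ ≠ 0) (n B : ℕ) : ∃ n' : ℕ, n ≤ n' ∧
    ∀ (m : ℕ) (S : Sys m) (c : Fin m → ℝ) (δ Y lam w : ℝ) (M : ℕ), 1 ≤ S.D → 0 ≤ S.ρ → S.ρ ≤ 1 →
      0 < δ → δ ≤ 1 / 2 → 0 < lam → δ⁻¹ ^ n' ≤ M → (M : ℝ) / S.D ≤ w → w ≤ δ ^ n' →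
      Y ≤ 3 * S.D →
      ∀ (g0 : Phi m) (t : List (Phi m)), TG S c δ M n (B + 1) (Y + M) γ lam w [] (g0 :: t) →
      ∃ Bad : Finset ℕ, (Bad.card : ℝ) ≤ δ ^ (2 * n) * M / 32 ∧
        ∀ h : ℕ, 1 ≤ h → h < M → h ∉ Bad →
          Clu S c δ M n' B Y (γ - 1) (lam * M / S.D) w g0 (t ++ (g0 :: t).map (tau h)) := by
  obtain ⟨n2, hn2, H2⟩ := gpart81 γ hγ n B
  refine ⟨n2 + 3 * n + 1, by omega, ?_⟩
  intro m S c δ Y lam w M hD1 hρ0 hρ1 hδ0 hδ1 hlam hM hMw hwδ hY g0 t hT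
  set n' := n2 + 3 * n + 1 with hn'
  have hD : 0 < S.D := by linarith
  have hi : 1 ≤ δ⁻¹ := (one_le_inv₀ hδ0).2 (by linarith)
  have hM0 : (0 : ℝ) ≤ M := Nat.cast_nonneg _
  have hw0 : 0 ≤ w := (div_nonneg hM0 hD.le).trans hMw
  have hw1 : w ≤ 1 := hwδ.trans (pow_le_one₀ hδ0.le (by linarith))
  have hlam' : 0 ≤ lam * M / S.D := by positivity
  have hq0 : ∀ g ∈ g0 :: t, Tp S c δ n (B + 1) (Y + M) γ lam w g := by
    intro g hg
    have := hT.q g hg 0 List.mem_cons_self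
    rwa [sub_zero] at this
  obtain ⟨Bad, hBad, HB⟩ := H2 m S c δ Y lam w M hD1 hρ0 hρ1 hδ0 hδ1 hlam
    ((pow_le_pow_right₀ hi (by omega)).trans hM) hMw hw1 hY g0 t hq0 (hT.g g0 t rfl) hT.lg
  refine ⟨Bad, hBad, fun h hh1 hhM hbad => ?_⟩
  have HB' := HB h hh1 hhM hbad
  constructor
  · intro g' hg'
    rw [List.mem_append, List.mem_map] at hg'
    rcases hg' with hg | ⟨g, hg, rfl⟩
    · exact (hT.g g0 t rfl g' hg).mono81 hD hδ0 hδ1 hlam' hw0 (by omega) (Nat.le_succ _)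
        (by linarith)
    · exact (HB' g hg).mono81 hD hδ0 hδ1 hlam' hw0 (by omega) le_rfl le_rfl
  · exact (hT.bg g0 List.mem_cons_self).mono (by omega)
  · intro g' hg'
    rw [List.mem_append, List.mem_map] at hg'
    rcases hg' with hg | ⟨g, hg, rfl⟩
    · exact (hT.bg g' (List.mem_cons_of_mem _ hg)).mono (by omega)
    · exact ((hT.bg g hg).tau hhM).mono (by omega)
  · simp
  · have := hT.lg
    simp only [List.length_cons] at this
    simp only [List.length_append, List.length_map, List.length_cons]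
    omega

end

end Pool.Agent.Helper57.NX
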